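import Pool.Agent.J4.H92.PI.LinNat
import Pool.Agent.J4.H92.PI.Jen2
import Pool.Agent.K4H63.PI.Lin4
import Pool.Agent.K4H63.PI.Main3

/-!
# The mass function along moving points of the centred spheres
-/

set_option autoImplicit false

namespace Pool.Agent.J4.H62.PI

open Pool.Agent.K4H63.PI Pool.Agent.J4.H92.PI
open scoped BigOperators Topology
open Matrix Filter Set MeasureTheory

variable {Θ : Type} [TopologicalSpace Θ] [CompactSpace Θ] [MeasurableSpace Θ] [BorelSpace Θ]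

/-- Differentiation under the integral over a compact parameter space. -/
theorem param_hasDerivAt (ν : Measure Θ) [IsFiniteMeasure ν] {a : ℝ} {f f' : ℝ → Θ → ℝ}
    (hf : ContinuousOn (fun z : ℝ × Θ => f z.1 z.2) (Ioi a ×ˢ univ))
    (hf' : ContinuousOn (fun z : ℝ × Θ => f' z.1 z.2) (Ioi a ×ˢ univ))
    (hd : ∀ r, a < r → ∀ θ, HasDerivAt (fun s => f s θ) (f' r θ) r) {r : ℝ} (hr : a < r) :
    HasDerivAt (fun s => ∫ θ, f s θ ∂ν) (∫ θ, f' r θ ∂ν) r := by
  have slice : ∀ {g : ℝ → Θ → ℝ}, ContinuousOn (fun z : ℝ × Θ => g z.1 z.2) (Ioi a ×ˢ univ) →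
      ∀ s, a < s → Continuous (g s) := by
    intro g hg s hs
    rw [← continuousOn_univ]
    exact hg.comp (f := fun θ : Θ => ((s, θ) : ℝ × Θ)) (Continuous.continuousOn (by fun_prop))
      (fun θ _ => ⟨hs, mem_univ _⟩)
  set b : ℝ := (a + r) / 2 with hb
  have hab : a < b := by rw [hb]; linarith
  have hbr : b < r := by rw [hb]; linarith
  have hK : IsCompact (Icc b (r + 1) ×ˢ (univ : Set Θ)) := isCompact_Icc.prod isCompact_univ
  obtain ⟨C, hC⟩ := hK.exists_bound_of_continuousOn (hf'.mono (by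
    rintro ⟨s, θ⟩ hs
    exact ⟨hab.trans_le hs.1.1, mem_univ _⟩))
  have hn : Ioo b (r + 1) ∈ 𝓝 r := Ioo_mem_nhds hbr (by linarith)
  have h1 := hasDerivAt_integral_of_dominated_loc_of_deriv_le (μ := ν)
    (F := f) (F' := f') (bound := fun _ => C) (x₀ := r) (s := Ioo b (r + 1)) hn
    (by
      filter_upwards [hn] with s hs
      exact (slice hf s (hab.trans hs.1)).aestronglyMeasurable)
    ((slice hf r hr).integrable_of_hasCompactSupport (HasCompactSupport.of_compactSpace _))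
    ((slice hf' r hr).aestronglyMeasurable)
    (Eventually.of_forall fun θ s hs => hC (s, θ) ⟨⟨hs.1.le, hs.2.le⟩, mem_univ _⟩)
    (integrable_const _)
    (Eventually.of_forall fun θ s hs => hd s (hab.trans hs.1) θ)
  exact h1.2

/-- A family of points `γ(r, θ)` of the unit sphere, continuously differentiable in `r > a`,
uniformly in `θ`. -/
structure Moving (a : ℝ) (γ γ' : ℝ → Θ → E) : Prop where
  unit : ∀ r, a < r → ∀ θ, ‖γ r θ‖ = 1
  deriv : ∀ r, a < r → ∀ θ, HasDerivAt (fun s => γ s θ) (γ' r θ) r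
  cont : ContinuousOn (fun z : ℝ × Θ => γ z.1 z.2) (Ioi a ×ˢ univ)
  cont' : ContinuousOn (fun z : ℝ × Θ => γ' z.1 z.2) (Ioi a ×ˢ univ)

/-- The mass function with `S` in place of the square of `q`. -/
noncomputable def GG (φ : ℝ → ℝ) (S : ℝ → ℝ) (r : ℝ) : ℝ :=
  YY φ r + r ^ 3 * S r / (4 * (φ r) ^ 2)

theorem hasDerivAt_GG {φ : ℝ → ℝ} (hφ : Good φ) {r : ℝ} (hr : 0 < r) {x : E} (hx : ‖x‖ = r)
    {S : ℝ → ℝ} {S' : ℝ} (hq : HasDerivAt S S' r) :
    HasDerivAt (GG φ S) (r ^ 2 / (2 * (φ r) ^ 2) *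
      (pp φ r * ((φ r) ^ 8 * scal (metric φ) x) + r * S' / 2 +
        (3 / 2 - r ^ 2 * psi φ r / 2) * S r)) r := by
  have hp := hφ.pos r hr
  have d0 := hasDerivAt_YY hφ hr hx
  have d1 := (hφ.diff hr).hasDerivAt
  have hd : deriv φ r = r * φ r * psi φ r / 2 := by
    unfold psi
    field_simp
  rw [hd] at d1
  have d4 := (((hasDerivAt_id r).fun_pow 3).mul hq).div
    ((d1.fun_pow 2).const_mul 4) (by positivity)
  have d5 := d0.add d4
  have h2 : HasDerivAt (GG φ S) _ r := d5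
  refine h2.congr_deriv ?_
  simp only [id, Pi.mul_apply]
  field_simp
  ring

/-- The key inequality at a point where the sphere is untrapped or the matter flux has the right
sign. -/
theorem key_flux {φ : ℝ → ℝ} (hφ : Good φ) {h : E → Matrix (Fin 3) (Fin 3) ℝ} (H : Tensor h)
    {x : E} (hx : x ≠ 0) (hdec : momentumNorm (metric φ) h x ≤ energy (metric φ) h x)
    (hy : 0 < pp φ ‖x‖)
    (hu : |trS φ h x| ≤ meanCurv φ x ∨ trS φ h x * radialJ φ h x ≤ 0) :
    ‖x‖ * qq h x * divMixed h x + (1 + ‖x‖ ^ 2 * psi φ ‖x‖) * transverse h x ≤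
      (1 + ‖x‖ ^ 2 * psi φ ‖x‖) * ((φ ‖x‖) ^ 8 * scal (metric φ) x) +
      ‖x‖ * qq h x * dr (qq h) x + (3 / 2 - ‖x‖ ^ 2 * psi φ ‖x‖ / 2) * (qq h x) ^ 2 := by
  rcases hu with hu | hu
  · exact key hφ H hx hdec ((untrapped_iff hφ h hx).1 hu)
  · have hr : 0 < ‖x‖ := norm_pos_iff.2 hx
    have hP : 0 < φ ‖x‖ := hφ.pos _ hr
    have h3 := dec_radial hφ H hx hdec
    have hm := radial_momentum hφ H hx
    have hJ : radialJ φ h x = ((φ ‖x‖) ^ 6)⁻¹ * (divMixed h x + (2 * hrad h x - qq h x) / ‖x‖ -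
        dr (qq h) x + ‖x‖ * psi φ ‖x‖ * (2 * hrad h x + qq h x)) := by
      unfold radialJ
      have e : ∑ k, momentum (metric φ) h k x * (x k / ‖x‖) =
          ∑ j, (x j / ‖x‖) * momentum (metric φ) h j x :=
        Finset.sum_congr rfl fun k _ => mul_comm _ _
      rw [e, hm]
      field_simp
    rw [hJ] at hu
    unfold trS at hu
    unfold pp at hy
    generalize hrad h x = A at *
    generalize qq h x = Q at *
    generalize dr (qq h) x = dQ at *
    generalize divMixed h x = D at *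
    generalize scal (metric φ) x = S at *
    generalize psi φ ‖x‖ = ps at *
    generalize transverse h x = N at *
    generalize φ ‖x‖ = P at *
    generalize ‖x‖ = r at *
    set B := D + (2 * A - Q) / r - dQ + r * ps * (2 * A + Q) with hB
    have hQB : Q * B ≤ 0 := by
      by_contra hcon
      push Not at hcon
      have h1 : 0 < (P ^ 10)⁻¹ * (Q * B) := by positivity
      have h2 : (P ^ 4)⁻¹ * Q * ((P ^ 6)⁻¹ * B) = (P ^ 10)⁻¹ * (Q * B) := by
        field_simp
      rw [h2] at hu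
      linarith
    have hX : 0 ≤ P ^ 8 * S + 2 * A * Q + Q ^ 2 / 2 - N := (abs_nonneg _).trans h3
    have h5 : r * Q * B ≤ (1 + r ^ 2 * ps) * (P ^ 8 * S + 2 * A * Q + Q ^ 2 / 2 - N) := by
      have h6 : 0 ≤ (1 + r ^ 2 * ps) * (P ^ 8 * S + 2 * A * Q + Q ^ 2 / 2 - N) :=
        mul_nonneg hy.le hX
      have h7 : r * Q * B ≤ 0 := by
        have := mul_nonneg hr.le (neg_nonneg.2 hQB)
        nlinarith
      linarith
    have h6 : r * Q * B = r * Q * D + 2 * A * Q - Q ^ 2 - r * Q * dQ +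
        r ^ 2 * ps * (2 * A * Q + Q ^ 2) := by
      rw [hB]
      field_simp
      ring
    rw [h6] at h5
    linarith

end Pool.Agent.J4.H62.PI
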