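import Pool.Agent.J4.H62.PI.Curve

/-!
# The Penrose inequality with a condition on the average over moving points
-/

set_option autoImplicit false

namespace Pool.Agent.J4.H62.PI

open Pool.Agent.K4H63.PI Pool.Agent.J4.H92.PI
open scoped BigOperators Topology
open Matrix Filter Set MeasureTheory

variable {Θ : Type} [TopologicalSpace Θ] [CompactSpace Θ] [MeasurableSpace Θ] [BorelSpace Θ]

/-- The average of `(tr_S h)²` over the moving points at radius `r`. -/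
noncomputable def meanSq (φ : ℝ → ℝ) (h : E → Matrix (Fin 3) (Fin 3) ℝ) (γ : ℝ → Θ → E)
    (ν : Measure Θ) (r : ℝ) : ℝ := ∫ θ, (trS φ h (r • γ r θ)) ^ 2 ∂ν

/-- The derivative of `tr_S h` along the motion of the point within the centred sphere, per unit of
radial distance. -/
noncomputable def drift (φ : ℝ → ℝ) (h : E → Matrix (Fin 3) (Fin 3) ℝ) (γ : ℝ → Θ → E)
    (r : ℝ) (θ : Θ) : ℝ := deriv (fun t => trS φ h (r • γ t θ)) r / (φ r) ^ 2

/-- The quantity whose average is required to be nonnegative: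
`(tr_S h) (div_S β + ∂_v tr_S h) + H (2 |β|² + |h°|²) / 2`. -/
noncomputable def bracket (φ : ℝ → ℝ) (h : E → Matrix (Fin 3) (Fin 3) ℝ) (γ : ℝ → Θ → E)
    (r : ℝ) (θ : Θ) : ℝ :=
  trS φ h (r • γ r θ) * (divS φ h (r • γ r θ) + drift φ h γ r θ) +
    sphereH φ r * transS φ h (r • γ r θ) / 2

/-- The average of `qq²` over the moving points. -/
noncomputable def SS (h : E → Matrix (Fin 3) (Fin 3) ℝ) (γ : ℝ → Θ → E) (ν : Measure Θ)
    (r : ℝ) : ℝ := ∫ θ, (qq h (r • γ r θ)) ^ 2 ∂ν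

/-- The derivative along the motion. -/
noncomputable def ff' (h : E → Matrix (Fin 3) (Fin 3) ℝ) (γ γ' : ℝ → Θ → E) (r : ℝ) (θ : Θ) : ℝ :=
  fderiv ℝ (qq h) (r • γ r θ) (γ r θ + r • γ' r θ)

section

variable {a : ℝ} {γ γ' : ℝ → Θ → E} {φ : ℝ → ℝ} {h : E → Matrix (Fin 3) (Fin 3) ℝ}

theorem Moving.ne (M : Moving a γ γ') (ha : 0 ≤ a) {r : ℝ} (hr : a < r) (θ : Θ) :
    r • γ r θ ≠ 0 := ray_ne (M.unit r hr θ) (ha.trans_lt hr)

theorem Moving.norm (M : Moving a γ γ') (ha : 0 ≤ a) {r : ℝ} (hr : a < r) (θ : Θ) :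
    ‖r • γ r θ‖ = r := ray_norm (M.unit r hr θ) (ha.trans_lt hr)

theorem Moving.pos_cont (M : Moving a γ γ') :
    ContinuousOn (fun z : ℝ × Θ => z.1 • γ z.1 z.2) (Ioi a ×ˢ univ) :=
  continuous_fst.continuousOn.smul M.cont

theorem Moving.comp_cont (M : Moving a γ γ') (ha : 0 ≤ a) {F : E → ℝ}
    (hF : ContinuousOn F {0}ᶜ) :
    ContinuousOn (fun z : ℝ × Θ => F (z.1 • γ z.1 z.2)) (Ioi a ×ˢ univ) := by
  refine hF.comp M.pos_cont ?_
  rintro ⟨r, θ⟩ hz
  exact M.ne ha hz.1 θ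

theorem slice_cont {g : ℝ → Θ → ℝ}
    (hg : ContinuousOn (fun z : ℝ × Θ => g z.1 z.2) (Ioi a ×ˢ univ)) {s : ℝ} (hs : a < s) :
    Continuous (g s) := by
  rw [← continuousOn_univ]
  exact hg.comp (f := fun θ : Θ => ((s, θ) : ℝ × Θ)) (Continuous.continuousOn (by fun_prop))
    (fun θ _ => ⟨hs, mem_univ _⟩)

theorem slice_int {g : ℝ → Θ → ℝ} (ν : Measure Θ) [IsFiniteMeasure ν]
    (hg : ContinuousOn (fun z : ℝ × Θ => g z.1 z.2) (Ioi a ×ˢ univ)) {s : ℝ} (hs : a < s) :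
    Integrable (g s) ν :=
  (slice_cont hg hs).integrable_of_hasCompactSupport (HasCompactSupport.of_compactSpace _)

theorem ff'_cont (M : Moving a γ γ') (ha : 0 ≤ a) (H : Tensor h) :
    ContinuousOn (fun z : ℝ × Θ => ff' h γ γ' z.1 z.2) (Ioi a ×ˢ univ) := by
  have h1 : ContinuousOn (fderiv ℝ (qq h)) {0}ᶜ :=
    H.qq_smooth.continuousOn_fderiv_of_isOpen isOpen_compl_singleton (by norm_num)
  have h2 : ContinuousOn (fun z : ℝ × Θ => fderiv ℝ (qq h) (z.1 • γ z.1 z.2))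
      (Ioi a ×ˢ univ) := by
    refine h1.comp M.pos_cont ?_
    rintro ⟨r, θ⟩ hz
    exact M.ne ha hz.1 θ
  exact h2.clm_apply (M.cont.add (continuous_fst.continuousOn.smul M.cont'))

theorem qq_traj (M : Moving a γ γ') (ha : 0 ≤ a) (H : Tensor h) {r : ℝ} (hr : a < r) (θ : Θ) :
    HasDerivAt (fun s => qq h (s • γ s θ)) (ff' h γ γ' r θ) r := by
  have h1 : HasDerivAt (fun s : ℝ => s • γ s θ) (r • γ' r θ + (1 : ℝ) • γ r θ) r :=
    (hasDerivAt_id r).smul (M.deriv r hr θ)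
  rw [one_smul, add_comm] at h1
  exact (H.qq_diff (M.ne ha hr θ)).hasFDerivAt.comp_hasDerivAt r h1

theorem SS_hasDerivAt (M : Moving a γ γ') (ha : 0 ≤ a) (H : Tensor h) (ν : Measure Θ)
    [IsFiniteMeasure ν] {r : ℝ} (hr : a < r) :
    HasDerivAt (SS h γ ν) (∫ θ, 2 * (qq h (r • γ r θ) * ff' h γ γ' r θ) ∂ν) r := by
  have c1 := M.comp_cont ha H.qq_smooth.continuousOn
  refine param_hasDerivAt ν (f := fun s θ => (qq h (s • γ s θ)) ^ 2)
    (f' := fun s θ => 2 * (qq h (s • γ s θ) * ff' h γ γ' s θ)) (c1.pow 2)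
    (continuousOn_const.mul (c1.mul (ff'_cont M ha H))) ?_ hr
  intro s hs θ
  refine ((qq_traj M ha H hs θ).fun_pow 2).congr_deriv ?_
  simp
  ring

theorem drift_eq (M : Moving a γ γ') (ha : 0 ≤ a) (hφ : Good φ) (H : Tensor h) {r : ℝ}
    (hr : a < r) (θ : Θ) :
    drift φ h γ r θ = ((φ r) ^ 6)⁻¹ * (ff' h γ γ' r θ - dr (qq h) (r • γ r θ)) := by
  have h0 : 0 < r := ha.trans_lt hr
  have hp := hφ.pos r h0
  have hs : HasDerivAt (fun t => r • γ t θ) (r • γ' r θ) r := (M.deriv r hr θ).fun_const_smul r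
  have hq : HasFDerivAt (qq h) (fderiv ℝ (qq h) (r • γ r θ)) ((fun t => r • γ t θ) r) :=
    (H.qq_diff (M.ne ha hr θ)).hasFDerivAt
  have hd0 := HasFDerivAt.comp_hasDerivAt (f := fun t => r • γ t θ) r hq hs
  have hd : HasDerivAt (fun t => qq h (r • γ t θ))
      (fderiv ℝ (qq h) (r • γ r θ) (r • γ' r θ)) r := hd0
  have he : (fun t => trS φ h (r • γ t θ)) =ᶠ[𝓝 r] fun t => ((φ r) ^ 4)⁻¹ * qq h (r • γ t θ) := by
    filter_upwards [Ioi_mem_nhds hr] with t ht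
    unfold trS
    rw [ray_norm (M.unit t ht θ) h0]
  have h1 : deriv (fun t => trS φ h (r • γ t θ)) r =
      ((φ r) ^ 4)⁻¹ * fderiv ℝ (qq h) (r • γ r θ) (r • γ' r θ) := by
    rw [he.deriv_eq]
    exact (hd.const_mul _).deriv
  have h2 : dr (qq h) (r • γ r θ) = fderiv ℝ (qq h) (r • γ r θ) (γ r θ) := by
    rw [dr_eq, M.norm ha hr θ, smul_smul, inv_mul_cancel₀ h0.ne', one_smul]
  unfold drift ff'
  rw [h1, h2, map_add]
  field_simp
  ring

theorem bracket_eq (M : Moving a γ γ') (ha : 0 ≤ a) (hφ : Good φ) (H : Tensor h) {r : ℝ}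
    (hr : a < r) (θ : Θ) :
    bracket φ h γ r θ = ((φ r) ^ 10 * r)⁻¹ * (r * qq h (r • γ r θ) * divMixed h (r • γ r θ) +
      pp φ r * transverse h (r • γ r θ) +
      r * qq h (r • γ r θ) * (ff' h γ γ' r θ - dr (qq h) (r • γ r θ))) := by
  have h0 : 0 < r := ha.trans_lt hr
  have hp := hφ.pos r h0
  unfold bracket
  rw [drift_eq M ha hφ H hr θ, sphereH_eq hφ h0]
  unfold trS divS transS
  rw [M.norm ha hr θ]
  field_simp
  ring

theorem meanSq_eq (M : Moving a γ γ') (ha : 0 ≤ a) (φ : ℝ → ℝ)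
    (h : E → Matrix (Fin 3) (Fin 3) ℝ) (ν : Measure Θ) {r : ℝ} (hr : a < r) :
    meanSq φ h γ ν r = ((φ r) ^ 8)⁻¹ * SS h γ ν r := by
  unfold meanSq SS
  rw [← integral_const_mul]
  refine integral_congr_ae (Eventually.of_forall fun θ => ?_)
  simp only [trS]
  rw [M.norm ha hr θ]
  by_cases h0 : φ r = 0
  · simp [h0]
  · field_simp

/-- The average over the moving points is untrapped: `0 < H` and the average of `(tr_S h)²` is less
than `H²`. -/
def Untr (φ : ℝ → ℝ) (h : E → Matrix (Fin 3) (Fin 3) ℝ) (γ : ℝ → Θ → E) (ν : Measure Θ)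
    (r : ℝ) : Prop := 0 < sphereH φ r ∧ meanSq φ h γ ν r < (sphereH φ r) ^ 2

theorem untr_iff (M : Moving a γ γ') (ha : 0 ≤ a) (hφ : Good φ) (ν : Measure Θ) {r : ℝ}
    (hr : a < r) :
    Untr φ h γ ν r ↔ r * Real.sqrt (SS h γ ν r) < 2 * (φ r) ^ 2 * pp φ r := by
  have h0 : 0 < r := ha.trans_lt hr
  have hp := hφ.pos r h0
  have hS : 0 ≤ SS h γ ν r := integral_nonneg fun θ => sq_nonneg _
  unfold Untr
  rw [meanSq_eq M ha φ h ν hr, sphereH_eq hφ h0]
  set S := SS h γ ν r with hSdef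
  have e1 : r * Real.sqrt S = Real.sqrt (r ^ 2 * S) := by
    rw [Real.sqrt_mul (by positivity), Real.sqrt_sq h0.le]
  rw [e1]
  constructor
  · rintro ⟨h1, h2⟩
    have hy : 0 < pp φ r := by
      by_contra hc
      have := div_nonpos_of_nonpos_of_nonneg (mul_nonpos_of_nonneg_of_nonpos
        (zero_le_two (α := ℝ)) (not_lt.1 hc)) (show 0 ≤ (φ r) ^ 2 * r by positivity)
      linarith
    rw [Real.sqrt_lt' (by positivity)]
    have h3 := mul_lt_mul_of_pos_right h2 (show 0 < (φ r) ^ 8 * r ^ 2 by positivity)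
    have e2 : ((φ r) ^ 8)⁻¹ * S * ((φ r) ^ 8 * r ^ 2) = r ^ 2 * S := by field_simp
    have e3 : (2 * pp φ r / ((φ r) ^ 2 * r)) ^ 2 * ((φ r) ^ 8 * r ^ 2) =
        (2 * (φ r) ^ 2 * pp φ r) ^ 2 := by field_simp
    rw [e2, e3] at h3
    exact h3
  · intro h1
    have h2 : 0 < 2 * (φ r) ^ 2 * pp φ r := (Real.sqrt_nonneg _).trans_lt h1
    have hy : 0 < pp φ r := by
      by_contra hc
      have := mul_nonpos_of_nonneg_of_nonpos (show 0 ≤ 2 * (φ r) ^ 2 by positivity) (not_lt.1 hc)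
      linarith
    refine ⟨by positivity, ?_⟩
    rw [Real.sqrt_lt' h2] at h1
    have e2 : ((φ r) ^ 8)⁻¹ * S * ((φ r) ^ 8 * r ^ 2) = r ^ 2 * S := by field_simp
    have e3 : (2 * pp φ r / ((φ r) ^ 2 * r)) ^ 2 * ((φ r) ^ 8 * r ^ 2) =
        (2 * (φ r) ^ 2 * pp φ r) ^ 2 := by field_simp
    rw [← e2, ← e3] at h1
    exact lt_of_mul_lt_mul_right h1 (by positivity)

theorem mean_deriv_nonneg (M : Moving a γ γ') (ha : 0 ≤ a) (hφ : Good φ) (H : Tensor h)
    (ν : Measure Θ) [IsProbabilityMeasure ν] {r : ℝ} (hr : a < r) (hy : 0 < pp φ r) {e : E}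
    (he : ‖e‖ = r)
    (dec : ∀ θ, momentumNorm (metric φ) h (r • γ r θ) ≤ energy (metric φ) h (r • γ r θ))
    (flux : ∀ θ, |trS φ h (r • γ r θ)| ≤ sphereH φ r ∨
      trS φ h (r • γ r θ) * radialJ φ h (r • γ r θ) ≤ 0)
    (cond : 0 ≤ ∫ θ, bracket φ h γ r θ ∂ν) :
    0 ≤ pp φ r * ((φ r) ^ 8 * scal (metric φ) e) +
      r * (∫ θ, 2 * (qq h (r • γ r θ) * ff' h γ γ' r θ) ∂ν) / 2 +
        (3 / 2 - r ^ 2 * psi φ r / 2) * SS h γ ν r := by
  have h0 : 0 < r := ha.trans_lt hr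
  have hp := hφ.pos r h0
  have he0 : e ≠ 0 := by rw [← norm_pos_iff, he]; exact h0
  -- continuity of the integrands
  have cQ := M.comp_cont ha H.qq_smooth.continuousOn
  have cD := M.comp_cont ha (divMixed_cont H)
  have cN := M.comp_cont ha H.transverse_cont
  have cR := M.comp_cont ha (dr_cont H.qq_smooth)
  have cF := ff'_cont M ha H
  have cr : ContinuousOn (fun z : ℝ × Θ => z.1) (Ioi a ×ˢ univ) := continuous_fst.continuousOn
  -- the two sides
  set Lf : Θ → ℝ := fun θ => r * qq h (r • γ r θ) * divMixed h (r • γ r θ) +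
      pp φ r * transverse h (r • γ r θ) +
      r * qq h (r • γ r θ) * (ff' h γ γ' r θ - dr (qq h) (r • γ r θ)) with hLf
  set s := pp φ r * ((φ r) ^ 8 * scal (metric φ) e) with hs
  set c := (3 / 2 - r ^ 2 * psi φ r / 2) with hc
  have iL : Integrable Lf ν := by
    have c1 : ContinuousOn (fun z : ℝ × Θ => z.1 * qq h (z.1 • γ z.1 z.2) *
        divMixed h (z.1 • γ z.1 z.2) + pp φ r * transverse h (z.1 • γ z.1 z.2) +
        z.1 * qq h (z.1 • γ z.1 z.2) * (ff' h γ γ' z.1 z.2 - dr (qq h) (z.1 • γ z.1 z.2)))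
        (Ioi a ×ˢ univ) :=
      (((cr.mul cQ).mul cD).add (continuousOn_const.mul cN)).add
        ((cr.mul cQ).mul (cF.sub cR))
    exact slice_int (g := fun s θ => s * qq h (s • γ s θ) *
        divMixed h (s • γ s θ) + pp φ r * transverse h (s • γ s θ) +
        s * qq h (s • γ s θ) * (ff' h γ γ' s θ - dr (qq h) (s • γ s θ))) ν c1 hr
  have iA : Integrable (fun θ => r * (qq h (r • γ r θ) * ff' h γ γ' r θ)) ν := by
    have c1 : ContinuousOn (fun z : ℝ × Θ => z.1 * (qq h (z.1 • γ z.1 z.2) * ff' h γ γ' z.1 z.2))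
        (Ioi a ×ˢ univ) := cr.mul (cQ.mul cF)
    exact slice_int (g := fun s θ => s * (qq h (s • γ s θ) * ff' h γ γ' s θ)) ν c1 hr
  have iB : Integrable (fun θ => c * (qq h (r • γ r θ)) ^ 2) ν := by
    have c1 : ContinuousOn (fun z : ℝ × Θ => c * (qq h (z.1 • γ z.1 z.2)) ^ 2)
        (Ioi a ×ˢ univ) := continuousOn_const.mul (cQ.pow 2)
    exact slice_int (g := fun s θ => c * (qq h (s • γ s θ)) ^ 2) ν c1 hr
  have iR : Integrable (fun θ => s + r * (qq h (r • γ r θ) * ff' h γ γ' r θ) +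
      c * (qq h (r • γ r θ)) ^ 2) ν := ((integrable_const s).add iA).add iB
  have hle : ∀ θ, Lf θ ≤ s + r * (qq h (r • γ r θ) * ff' h γ γ' r θ) +
      c * (qq h (r • γ r θ)) ^ 2 := by
    intro θ
    have hx := M.ne ha hr θ
    have hn := M.norm ha hr θ
    have hsc : scal (metric φ) (r • γ r θ) = scal (metric φ) e := by
      rw [scal_metric hφ hx, scal_metric hφ he0, hn, he]
    have hm : meanCurv φ (r • γ r θ) = sphereH φ r := by
      unfold meanCurv sphereH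
      rw [hn]
    have k := key_flux hφ H hx (dec θ) (by rw [hn]; exact hy) (by rw [hm]; exact flux θ)
    rw [hn, hsc] at k
    simp only [hLf, hs, hc]
    unfold pp
    linarith
  have h1 := integral_mono iL iR hle
  have h2 : 0 ≤ ∫ θ, Lf θ ∂ν := by
    have h3 : ∫ θ, bracket φ h γ r θ ∂ν = ((φ r) ^ 10 * r)⁻¹ * ∫ θ, Lf θ ∂ν := by
      rw [← integral_const_mul]
      exact integral_congr_ae (Eventually.of_forall fun θ => bracket_eq M ha hφ H hr θ)
    rw [h3] at cond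
    have h4 : 0 < ((φ r) ^ 10 * r)⁻¹ := by positivity
    exact nonneg_of_mul_nonneg_right cond h4
  have h5 : ∫ θ, (s + r * (qq h (r • γ r θ) * ff' h γ γ' r θ) +
      c * (qq h (r • γ r θ)) ^ 2) ∂ν = s + r * (∫ θ, 2 * (qq h (r • γ r θ) * ff' h γ γ' r θ) ∂ν) / 2 +
        c * SS h γ ν r := by
    have iA' : Integrable (fun θ => s + r * (qq h (r • γ r θ) * ff' h γ γ' r θ)) ν :=
      (integrable_const s).add iA
    have e1 := integral_add iA' iB
    have e2 := integral_add (integrable_const (μ := ν) s) iA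
    have e3 : ∫ θ, r * (qq h (r • γ r θ) * ff' h γ γ' r θ) ∂ν =
        r * ∫ θ, qq h (r • γ r θ) * ff' h γ γ' r θ ∂ν := integral_const_mul _ _
    have e4 : ∫ θ, c * (qq h (r • γ r θ)) ^ 2 ∂ν = c * SS h γ ν r := integral_const_mul _ _
    have e5 : ∫ θ, 2 * (qq h (r • γ r θ) * ff' h γ γ' r θ) ∂ν =
        2 * ∫ θ, qq h (r • γ r θ) * ff' h γ γ' r θ ∂ν := integral_const_mul _ _
    have e6 : ∫ _θ : Θ, s ∂ν = s := by simp
    rw [e5, e1, e2, e3, e4, e6]
    ring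
  rw [h5] at h1
  linarith

end

end Pool.Agent.J4.H62.PI
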