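import Pool.Agent.J4.H62.PI.Curve2

/-!
# The Penrose inequality with a condition on the average over moving points: conclusion
-/

set_option autoImplicit false

namespace Pool.Agent.J4.H62.PI

open Pool.Agent.K4H63.PI Pool.Agent.J4.H92.PI
open scoped BigOperators Topology
open Matrix Filter Set MeasureTheory

variable {Θ : Type} [TopologicalSpace Θ] [CompactSpace Θ] [MeasurableSpace Θ] [BorelSpace Θ]

theorem mean_core {a : ℝ} {γ γ' : ℝ → Θ → E} {φ : ℝ → ℝ} {h : E → Matrix (Fin 3) (Fin 3) ℝ}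
    {m : ℝ} (M : Moving a γ γ') (ha : 0 ≤ a) (hφ : Good φ) (H : Tensor h) (ν : Measure Θ)
    [IsProbabilityMeasure ν] (flat : FlatEnd φ m) (decay : Decay h) {r₁ : ℝ} (hr₁ : a < r₁)
    (trapped : sphereH φ r₁ ≤ 0 ∨ (sphereH φ r₁) ^ 2 ≤ meanSq φ h γ ν r₁)
    (dec : ∀ r, r₁ < r → (∀ s, r ≤ s → Untr φ h γ ν s) → ∀ θ,
      momentumNorm (metric φ) h (r • γ r θ) ≤ energy (metric φ) h (r • γ r θ))
    (flux : ∀ r, r₁ < r → (∀ s, r ≤ s → Untr φ h γ ν s) → ∀ θ,
      |trS φ h (r • γ r θ)| ≤ sphereH φ r ∨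
      trS φ h (r • γ r θ) * radialJ φ h (r • γ r θ) ≤ 0)
    (cond : ∀ r, r₁ < r → (∀ s, r ≤ s → Untr φ h γ ν s) → 0 ≤ ∫ θ, bracket φ h γ r θ ∂ν) :
    ∃ r₀, r₁ ≤ r₀ ∧ Real.sqrt (sphereArea φ r₀ / (16 * Real.pi)) ≤ m := by
  obtain ⟨C, hC⟩ := decay
  have h01 : 0 < r₁ := ha.trans_lt hr₁
  have S0 : ∀ r, 0 ≤ SS h γ ν r := fun r => integral_nonneg fun θ => sq_nonneg _
  have Sc : ∀ r, a < r → ContinuousAt (SS h γ ν) r := fun r hr =>
    (SS_hasDerivAt M ha H ν hr).continuousAt
  -- decay of `S`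
  have hC0 : 0 ≤ C := by
    have := hC (EuclideanSpace.single 0 1) (by simp) 0 0
    simp only [EuclideanSpace.norm_single, norm_one, one_pow, div_one] at this
    exact (abs_nonneg _).trans this
  have hbd0 : ∀ r, 1 ≤ r → r₁ ≤ r → Real.sqrt (SS h γ ν r) ≤ 12 * C / r ^ 2 := by
    intro r hr hr'
    have h0 : 0 < r := by linarith
    have har : a < r := hr₁.trans_le hr'
    rw [Real.sqrt_le_left (by positivity)]
    have h1 : SS h γ ν r ≤ ∫ _θ : Θ, (12 * C / r ^ 2) ^ 2 ∂ν := by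
      refine integral_mono (slice_int (g := fun s θ => (qq h (s • γ s θ)) ^ 2) ν
        ((M.comp_cont ha H.qq_smooth.continuousOn).pow 2) har) (integrable_const _) fun θ => ?_
      have h2 := hC (r • γ r θ) (by rw [M.norm ha har θ]; exact hr)
      rw [M.norm ha har θ] at h2
      have h3 : |qq h (r • γ r θ)| ≤ 12 * C / r ^ 2 :=
        (qq_bound (M.ne ha har θ) h2).trans (le_of_eq (by ring))
      simp only
      rw [← sq_abs]
      exact pow_le_pow_left₀ (abs_nonneg _) h3 2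
    simpa using h1
  set q : ℝ → ℝ := fun r => Real.sqrt (SS h γ ν (max r r₁)) with hq
  have hqr : ∀ r, r₁ ≤ r → q r = Real.sqrt (SS h γ ν r) := by
    intro r hr
    simp only [hq]
    rw [max_eq_left hr]
  have qc : ∀ r, 0 < r → ContinuousAt q r := by
    intro r _
    have h1 : ContinuousAt (fun s : ℝ => SS h γ ν (max s r₁)) r := by
      refine ContinuousAt.comp (f := fun s : ℝ => max s r₁) (g := SS h γ ν)
        (Sc _ (lt_of_lt_of_le hr₁ (le_max_right _ _))) ?_
      fun_prop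
    exact h1.sqrt
  -- a version of `q` with decay for all `r ≥ 1`
  set q' : ℝ → ℝ := fun r => if r₁ ≤ r then Real.sqrt (SS h γ ν r) else 0 with hq'
  have hbd : ∀ r : ℝ, 1 ≤ r → |q' r| ≤ 12 * C / r ^ 2 := by
    intro r hr
    simp only [hq']
    split_ifs with hh
    · rw [abs_of_nonneg (Real.sqrt_nonneg _)]
      exact hbd0 r hr hh
    · rw [abs_zero]; positivity
  have hX : Tendsto (fun r => r * q r / (2 * (φ r) ^ 2)) atTop (𝓝 0) := by
    refine (tendsto_X flat.one hbd).congr' ?_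
    filter_upwards [eventually_ge_atTop r₁] with r hr
    simp only [hq']
    rw [if_pos hr, hqr r hr]
  have hlim : Tendsto (GG φ (SS h γ ν)) atTop (𝓝 (2 * m)) := by
    have h1 := (flat.YY hφ).add (tendsto_sq_term flat.one hbd)
    rw [add_zero] at h1
    refine h1.congr' ?_
    filter_upwards [eventually_ge_atTop r₁] with r hr
    simp only [hq', GG]
    rw [if_pos hr, Real.sq_sqrt (S0 r)]
  obtain ⟨r₀, h10, h0eq, hgt⟩ := last_trapped hφ (q := q) h01 qc
    (by
      rw [hqr r₁ le_rfl, abs_of_nonneg (by positivity)]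
      by_contra hcon
      have h1 := (untr_iff M ha hφ ν hr₁).2 (not_le.1 hcon)
      rcases trapped with h2 | h2
      · exact absurd h1.1 (not_lt.2 h2)
      · exact absurd h1.2 (not_lt.2 h2))
    (flat.pp hφ) hX
  have h00 : 0 < r₀ := h01.trans_le h10
  have ha0 : a < r₀ := hr₁.trans_le h10
  have hun : ∀ r, r₀ < r → Untr φ h γ ν r := by
    intro r hr
    have h1 := hgt r hr
    rw [hqr r (h10.trans hr.le), abs_of_nonneg
      (mul_nonneg (h00.trans hr).le (Real.sqrt_nonneg _))] at h1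
    exact (untr_iff M ha hφ ν (ha0.trans hr)).2 h1
  have hmono : MonotoneOn (GG φ (SS h γ ν)) (Ici r₀) := by
    have hd : ∀ r, r₀ ≤ r → HasDerivAt (GG φ (SS h γ ν)) _ r := fun r hr =>
      hasDerivAt_GG hφ (h00.trans_le hr) (ray_norm e0_norm (h00.trans_le hr))
        (SS_hasDerivAt M ha H ν (ha0.trans_le hr))
    apply monotoneOn_of_deriv_nonneg (convex_Ici r₀)
    · exact fun r hr => (hd r hr).continuousAt.continuousWithinAt
    · intro r hr
      rw [interior_Ici] at hr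
      exact (hd r (le_of_lt hr)).differentiableAt.differentiableWithinAt
    · intro r hr
      rw [interior_Ici] at hr
      have hr' : r₀ < r := hr
      have h0 : 0 < r := h00.trans hr'
      have hp := hφ.pos r h0
      rw [(hd r hr'.le).deriv]
      have hU : ∀ s, r ≤ s → Untr φ h γ ν s := fun s hs => hun s (hr'.trans_le hs)
      have hy : 0 < pp φ r := by
        have h1 := (hun r hr').1
        rw [sphereH_eq hφ h0] at h1
        by_contra hc
        have := div_nonpos_of_nonpos_of_nonneg (mul_nonpos_of_nonneg_of_nonpos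
          (zero_le_two (α := ℝ)) (not_lt.1 hc)) (show 0 ≤ (φ r) ^ 2 * r by positivity)
        linarith
      have h1r : r₁ < r := h10.trans_lt hr'
      exact mul_nonneg (by positivity) (mean_deriv_nonneg M ha hφ H ν (ha0.trans hr') hy
        (ray_norm e0_norm h0) (dec r h1r hU) (flux r h1r hU) (cond r h1r hU))
  have hlim2 : GG φ (SS h γ ν) r₀ ≤ 2 * m := by
    refine ge_of_tendsto hlim ?_
    filter_upwards [eventually_ge_atTop r₀] with r hr
    exact hmono (mem_Ici.2 le_rfl) (mem_Ici.2 hr) hr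
  refine ⟨r₀, h10, ?_⟩
  rw [sqrt_area hφ h00]
  have hpos : 0 < φ r₀ := hφ.pos r₀ h00
  have h5 : (2 * (φ r₀) ^ 2 * pp φ r₀) ^ 2 = r₀ ^ 2 * SS h γ ν r₀ := by
    rw [h0eq, sq_abs, hqr r₀ h10, mul_pow, Real.sq_sqrt (S0 r₀)]
  have h6 : GG φ (SS h γ ν) r₀ = (φ r₀) ^ 2 * r₀ := by
    unfold GG YY
    field_simp
    linear_combination -h5
  rw [h6] at hlim2
  linarith

end Pool.Agent.J4.H62.PI
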