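import Pool.Agent.J4.H92.PI.Jen2

/-!
# Data which are spherically symmetric only in an exterior region: locality and extension
-/

set_option autoImplicit false

namespace Pool.Agent.J4.H62.PI

open Pool.Agent.K4H63.PI Pool.Agent.J4.H92.PI
open scoped BigOperators Topology
open Matrix Filter Set MeasureTheory

theorem pd_congr {F F' : E → ℝ} {x : E} (h : F =ᶠ[𝓝 x] F') (i : Fin 3) : pd i F x = pd i F' x := by
  unfold pd
  rw [h.fderiv_eq]

theorem pd_congr_ev {F F' : E → ℝ} {x : E} (h : F =ᶠ[𝓝 x] F') (i : Fin 3) :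
    pd i F =ᶠ[𝓝 x] pd i F' := by
  filter_upwards [h.eventuallyEq_nhds] with y hy
  exact pd_congr hy i

theorem entry_congr {G G' : E → Matrix (Fin 3) (Fin 3) ℝ} {x : E} (h : G =ᶠ[𝓝 x] G')
    (i j : Fin 3) : (fun y => G y i j) =ᶠ[𝓝 x] fun y => G' y i j := by
  filter_upwards [h] with y hy
  rw [hy]

theorem chr_congr {G G' : E → Matrix (Fin 3) (Fin 3) ℝ} {x : E} (h : G =ᶠ[𝓝 x] G')
    (k i j : Fin 3) : chr G k i j x = chr G' k i j x := by
  unfold chr
  rw [h.eq_of_nhds]
  congr 1
  refine Finset.sum_congr rfl fun l _ => ?_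
  rw [pd_congr (entry_congr h j l), pd_congr (entry_congr h i l), pd_congr (entry_congr h i j)]

theorem chr_congr_ev {G G' : E → Matrix (Fin 3) (Fin 3) ℝ} {x : E} (h : G =ᶠ[𝓝 x] G')
    (k i j : Fin 3) : chr G k i j =ᶠ[𝓝 x] chr G' k i j := by
  filter_upwards [h.eventuallyEq_nhds] with y hy
  exact chr_congr hy k i j

theorem scal_congr {G G' : E → Matrix (Fin 3) (Fin 3) ℝ} {x : E} (h : G =ᶠ[𝓝 x] G') :
    scal G x = scal G' x := by
  unfold scal
  rw [h.eq_of_nhds]
  refine Finset.sum_congr rfl fun j _ => Finset.sum_congr rfl fun k _ => ?_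
  congr 1
  refine Finset.sum_congr rfl fun i _ => ?_
  rw [pd_congr (chr_congr_ev h i j k), pd_congr (chr_congr_ev h i i j)]
  congr 1
  refine Finset.sum_congr rfl fun l _ => ?_
  rw [chr_congr h, chr_congr h, chr_congr h, chr_congr h]

theorem trg_congr {G G' h h' : E → Matrix (Fin 3) (Fin 3) ℝ} {x : E} (hG : G x = G' x)
    (hh : h x = h' x) : trg G h x = trg G' h' x := by
  unfold trg
  rw [hG, hh]

theorem nsq_congr {G G' h h' : E → Matrix (Fin 3) (Fin 3) ℝ} {x : E} (hG : G x = G' x)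
    (hh : h x = h' x) : nsq G h x = nsq G' h' x := by
  unfold nsq
  rw [hG, hh]

theorem energy_congr {G G' h h' : E → Matrix (Fin 3) (Fin 3) ℝ} {x : E} (hG : G =ᶠ[𝓝 x] G')
    (hh : h =ᶠ[𝓝 x] h') : energy G h x = energy G' h' x := by
  unfold energy
  rw [scal_congr hG, nsq_congr hG.eq_of_nhds hh.eq_of_nhds, trg_congr hG.eq_of_nhds hh.eq_of_nhds]

theorem cov_congr {G G' T T' : E → Matrix (Fin 3) (Fin 3) ℝ} {x : E} (hG : G =ᶠ[𝓝 x] G')
    (hT : T =ᶠ[𝓝 x] T') (i k j : Fin 3) : cov G T i k j x = cov G' T' i k j x := by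
  unfold cov
  rw [pd_congr (entry_congr hT k j), hT.eq_of_nhds]
  simp only [chr_congr hG]

theorem momentum_congr {G G' h h' : E → Matrix (Fin 3) (Fin 3) ℝ} {x : E} (hG : G =ᶠ[𝓝 x] G')
    (hh : h =ᶠ[𝓝 x] h') (j : Fin 3) : momentum G h j x = momentum G' h' j x := by
  unfold momentum
  rw [hG.eq_of_nhds]
  refine Finset.sum_congr rfl fun i _ => Finset.sum_congr rfl fun k _ => ?_
  rw [cov_congr hG]
  filter_upwards [hG, hh] with y h1 h2
  rw [trg_congr h1 h2, h1, h2]

theorem momentumNorm_congr {G G' h h' : E → Matrix (Fin 3) (Fin 3) ℝ} {x : E} (hG : G =ᶠ[𝓝 x] G')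
    (hh : h =ᶠ[𝓝 x] h') : momentumNorm G h x = momentumNorm G' h' x := by
  unfold momentumNorm
  rw [hG.eq_of_nhds]
  simp only [momentum_congr hG hh]

theorem admFlux_congr {G G' : E → Matrix (Fin 3) (Fin 3) ℝ} {r₀ r : ℝ} (h0 : 0 ≤ r₀)
    (hG : ∀ x : E, r₀ < ‖x‖ → G x = G' x) (hr : r₀ < r) : admFlux G r = admFlux G' r := by
  have hr0 : 0 < r := h0.trans_lt hr
  unfold admFlux
  congr 2
  refine integral_congr_ae (Eventually.of_forall fun ω => ?_)
  have hn : ‖r • (ω : E)‖ = r := ray_norm (sphere_norm ω) hr0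
  have hev : G =ᶠ[𝓝 (r • (ω : E))] G' := by
    have : {x : E | r₀ < ‖x‖} ∈ 𝓝 (r • (ω : E)) :=
      (isOpen_lt continuous_const continuous_norm).mem_nhds (by simpa [hn] using hr)
    filter_upwards [this] with y hy
    exact hG y hy
  refine Finset.sum_congr rfl fun j _ => ?_
  congr 1
  refine Finset.sum_congr rfl fun i _ => ?_
  rw [pd_congr (entry_congr hev i j), pd_congr (entry_congr hev i i)]

/-! ### extension -/

/-- A smooth cutoff: `0` up to `a` and `1` from `b` on. -/
noncomputable def cut (a b s : ℝ) : ℝ := Real.smoothTransition ((s - a) / (b - a))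

theorem cut_smooth (a b : ℝ) : ContDiff ℝ 2 (cut a b) := by
  unfold cut
  exact Real.smoothTransition.contDiff.comp ((contDiff_id.sub contDiff_const).div_const _)

theorem cut_nonneg (a b s : ℝ) : 0 ≤ cut a b s := Real.smoothTransition.nonneg _

theorem cut_le_one (a b s : ℝ) : cut a b s ≤ 1 := Real.smoothTransition.le_one _

theorem cut_zero {a b s : ℝ} (hab : a < b) (hs : s ≤ a) : cut a b s = 0 := by
  unfold cut
  exact Real.smoothTransition.zero_of_nonpos
    (div_nonpos_of_nonpos_of_nonneg (by linarith) (by linarith))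

theorem cut_one {a b s : ℝ} (hab : a < b) (hs : b ≤ s) : cut a b s = 1 := by
  unfold cut
  exact Real.smoothTransition.one_of_one_le ((one_le_div (by linarith)).2 (by linarith))

/-- The extended conformal factor. -/
noncomputable def extφ (a b : ℝ) (φ : ℝ → ℝ) (s : ℝ) : ℝ := cut a b s * φ s + (1 - cut a b s)

/-- The extended tensor. -/
noncomputable def exth (a b : ℝ) (h : E → Matrix (Fin 3) (Fin 3) ℝ) (x : E) :
    Matrix (Fin 3) (Fin 3) ℝ := cut a b ‖x‖ • h x

theorem extφ_eq {a b : ℝ} (hab : a < b) (φ : ℝ → ℝ) {s : ℝ} (hs : b ≤ s) :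
    extφ a b φ s = φ s := by
  unfold extφ
  rw [cut_one hab hs]
  ring

theorem exth_eq {a b : ℝ} (hab : a < b) (h : E → Matrix (Fin 3) (Fin 3) ℝ) {x : E}
    (hx : b ≤ ‖x‖) : exth a b h x = h x := by
  unfold exth
  rw [cut_one hab hx, one_smul]

theorem extφ_good {r₀ a b : ℝ} (h1 : r₀ < a) (hab : a < b) {φ : ℝ → ℝ}
    (hs : ContDiffOn ℝ 2 φ (Ioi r₀)) (hp : ∀ r, r₀ < r → 0 < φ r) : Good (extφ a b φ) := by
  constructor
  · intro s hs0
    refine ContDiffAt.contDiffWithinAt ?_
    by_cases h : s < a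
    · have : extφ a b φ =ᶠ[𝓝 s] fun _ => (1 : ℝ) := by
        filter_upwards [Iio_mem_nhds h] with t ht
        unfold extφ
        rw [cut_zero hab (le_of_lt ht)]
        ring
      exact contDiffAt_const.congr_of_eventuallyEq this
    · have h2 : r₀ < s := h1.trans_le (not_lt.1 h)
      have hφ : ContDiffAt ℝ 2 φ s := hs.contDiffAt (Ioi_mem_nhds h2)
      have hc : ContDiffAt ℝ 2 (cut a b) s := (cut_smooth a b).contDiffAt
      exact (hc.mul hφ).add (contDiffAt_const.sub hc)
  · intro s _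
    by_cases h : s ≤ a
    · unfold extφ
      rw [cut_zero hab h]
      norm_num
    · have h2 : r₀ < s := h1.trans (not_le.1 h)
      have h3 := hp s h2
      have h4 := cut_nonneg a b s
      have h5 := cut_le_one a b s
      unfold extφ
      rcases eq_or_lt_of_le h4 with h6 | h6
      · rw [← h6]; norm_num
      · have : 0 < cut a b s * φ s := mul_pos h6 h3
        linarith

theorem exth_tensor {r₀ a b : ℝ} (h0 : 0 ≤ r₀) (h1 : r₀ < a) (hab : a < b)
    {h : E → Matrix (Fin 3) (Fin 3) ℝ} (symm : ∀ x, r₀ < ‖x‖ → ∀ i j, h x i j = h x j i)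
    (smooth : ∀ i j, ContDiffOn ℝ 1 (fun x => h x i j) {x | r₀ < ‖x‖}) :
    Tensor (exth a b h) := by
  constructor
  · intro x _ i j
    unfold exth
    simp only [Matrix.smul_apply, smul_eq_mul]
    by_cases hx : ‖x‖ ≤ a
    · rw [cut_zero hab hx]
      ring
    · rw [symm x (h1.trans (not_le.1 hx)) i j]
  · intro i j x hx
    refine ContDiffAt.contDiffWithinAt ?_
    have hx0 : x ≠ 0 := hx
    by_cases hxa : ‖x‖ < a
    · have : (fun y => exth a b h y i j) =ᶠ[𝓝 x] fun _ => (0 : ℝ) := by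
        filter_upwards [(isOpen_lt continuous_norm continuous_const).mem_nhds hxa] with y hy
        unfold exth
        rw [cut_zero hab (le_of_lt hy)]
        simp
      exact contDiffAt_const.congr_of_eventuallyEq this
    · have h2 : r₀ < ‖x‖ := h1.trans_le (not_lt.1 hxa)
      have hh : ContDiffAt ℝ 1 (fun y => h y i j) x := (smooth i j).contDiffAt
        ((isOpen_lt continuous_const continuous_norm).mem_nhds h2)
      have hc : ContDiffAt ℝ 1 (fun y : E => cut a b ‖y‖) x :=
        ((cut_smooth a b).of_le (by norm_num)).contDiffAt.comp x (contDiffAt_norm ℝ hx0)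
      have := hc.mul hh
      refine this.congr_of_eventuallyEq (Eventually.of_forall fun y => ?_)
      unfold exth
      simp [Matrix.smul_apply]

end Pool.Agent.J4.H62.PI
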