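import Pool.Agent.J4.H62.PI.Ext
import Pool.Agent.J4.H62.PI.Curve3

/-!
# Data given on an end only
-/

set_option autoImplicit false

namespace Pool.Agent.J4.H62.PI

open Pool.Agent.K4H63.PI Pool.Agent.J4.H92.PI
open scoped BigOperators Topology
open Matrix Filter Set MeasureTheory

/-- `φ` is positive and `C²` on `(a, ∞)`. -/
structure GoodFrom (a : ℝ) (φ : ℝ → ℝ) : Prop where
  smooth : ContDiffOn ℝ 2 φ (Ioi a)
  pos : ∀ r, a < r → 0 < φ r

/-- `h` is symmetric and `C¹` on `{|x| > a}`. -/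
structure TensorFrom (a : ℝ) (h : E → Matrix (Fin 3) (Fin 3) ℝ) : Prop where
  symm : ∀ x : E, a < ‖x‖ → ∀ i j, h x i j = h x j i
  smooth : ∀ i j, ContDiffOn ℝ 1 (fun x => h x i j) {x : E | a < ‖x‖}

/-- Decay of the second fundamental form, `h = O(|x|⁻²)`. -/
def DecayFar (h : E → Matrix (Fin 3) (Fin 3) ℝ) : Prop :=
  ∃ C R : ℝ, ∀ x : E, R ≤ ‖x‖ → ∀ i j, |h x i j| ≤ C / ‖x‖ ^ 2

theorem decay_of_far {h : E → Matrix (Fin 3) (Fin 3) ℝ} (H : Tensor h) (hf : DecayFar h) :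
    Decay h := by
  obtain ⟨C, R, hC⟩ := hf
  have hK : IsCompact {x : E | 1 ≤ ‖x‖ ∧ ‖x‖ ≤ R} := by
    refine Metric.isCompact_of_isClosed_isBounded ?_ ?_
    · exact (isClosed_le continuous_const continuous_norm).inter
        (isClosed_le continuous_norm continuous_const)
    · exact (Metric.isBounded_closedBall (x := (0 : E)) (r := R)).subset fun x hx => by
        simpa [Metric.mem_closedBall, dist_zero_right] using hx.2
  have hB : ∀ i j, ∃ D, ∀ x ∈ {x : E | 1 ≤ ‖x‖ ∧ ‖x‖ ≤ R}, ‖h x i j‖ ≤ D := fun i j =>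
    hK.exists_bound_of_continuousOn ((H.smooth i j).continuousOn.mono fun x hx => by
      simp only [mem_compl_iff, mem_singleton_iff]
      intro h0
      have := hx.1
      rw [h0, norm_zero] at this
      linarith)
  choose D hD using hB
  set B := ∑ i, ∑ j, |D i j| with hBdef
  have hB0 : 0 ≤ B := Finset.sum_nonneg fun i _ => Finset.sum_nonneg fun j _ => abs_nonneg _
  have hDB : ∀ i j, D i j ≤ B := fun i j =>
    (le_abs_self _).trans ((Finset.single_le_sum (f := fun j => |D i j|)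
      (fun j _ => abs_nonneg _) (Finset.mem_univ j)).trans
      (Finset.single_le_sum (f := fun i => ∑ j, |D i j|)
        (fun i _ => Finset.sum_nonneg fun j _ => abs_nonneg _) (Finset.mem_univ i)))
  refine ⟨max C (B * R ^ 2), fun x hx i j => ?_⟩
  have h0 : 0 < ‖x‖ := by linarith
  by_cases hR : R ≤ ‖x‖
  · exact (hC x hR i j).trans (div_le_div_of_nonneg_right (le_max_left _ _) (by positivity))
  · have hR' := (not_le.1 hR).le
    have h1 : |h x i j| ≤ B := (hD i j x ⟨hx, hR'⟩).trans (hDB i j)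
    rw [le_div_iff₀ (by positivity)]
    refine le_trans ?_ (le_max_right _ _)
    exact mul_le_mul h1 (pow_le_pow_left₀ h0.le hR' 2) (by positivity) hB0

theorem exists_ext {a r₁ m : ℝ} (ha : 0 ≤ a) (hr : a < r₁) {φ : ℝ → ℝ}
    {h : E → Matrix (Fin 3) (Fin 3) ℝ} (hφ : GoodFrom a φ) (hh : TensorFrom a h)
    (flat : FlatEnd φ m) (decay : DecayFar h) :
    ∃ (b : ℝ) (φ' : ℝ → ℝ) (h' : E → Matrix (Fin 3) (Fin 3) ℝ), a < b ∧ b < r₁ ∧ Good φ' ∧
      Tensor h' ∧ FlatEnd φ' m ∧ Decay h' ∧ (∀ r, b ≤ r → φ' r = φ r) ∧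
      (∀ x : E, b ≤ ‖x‖ → h' x = h x) := by
  obtain ⟨c, hc1, hc2⟩ := exists_between hr
  obtain ⟨b, hb1, hb2⟩ := exists_between hc2
  have H : Tensor (exth c b h) := exth_tensor ha hc1 hb1 hh.symm hh.smooth
  have h0b : 0 ≤ b := ha.trans (hc1.trans hb1).le
  refine ⟨b, extφ c b φ, exth c b h, hc1.trans hb1, hb2, extφ_good hc1 hb1 hφ.smooth hφ.pos, H,
    ⟨?_, ?_⟩, ?_, fun r hr => extφ_eq hb1 φ hr, fun x hx => exth_eq hb1 h hx⟩
  · refine flat.one.congr' ?_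
    filter_upwards [eventually_ge_atTop b] with r hr
    rw [extφ_eq hb1 φ hr]
  · refine flat.mass.congr' ?_
    filter_upwards [eventually_gt_atTop b] with r hr
    refine admFlux_congr h0b (fun x hx => ?_) hr
    unfold metric
    rw [extφ_eq hb1 φ hx.le]
  · refine decay_of_far H ?_
    obtain ⟨C, R, hC⟩ := decay
    refine ⟨C, max R b, fun x hx i j => ?_⟩
    rw [exth_eq hb1 h ((le_max_right _ _).trans hx)]
    exact hC x ((le_max_left _ _).trans hx) i j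

section

variable {b : ℝ} {φ φ' : ℝ → ℝ} {h h' : E → Matrix (Fin 3) (Fin 3) ℝ}

theorem far_nhds {x : E} (hx : b < ‖x‖) : {y : E | b < ‖y‖} ∈ 𝓝 x :=
  (isOpen_lt continuous_const continuous_norm).mem_nhds hx

theorem metric_ev (e1 : ∀ r, b ≤ r → φ' r = φ r) {x : E} (hx : b < ‖x‖) :
    metric φ' =ᶠ[𝓝 x] metric φ := by
  filter_upwards [far_nhds hx] with y hy
  unfold metric
  rw [e1 _ (le_of_lt hy)]

theorem h_ev (e2 : ∀ x : E, b ≤ ‖x‖ → h' x = h x) {x : E} (hx : b < ‖x‖) : h' =ᶠ[𝓝 x] h := by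
  filter_upwards [far_nhds hx] with y hy
  exact e2 y (le_of_lt hy)

theorem hrad_congr {x : E} (e : h' x = h x) : hrad h' x = hrad h x := by
  unfold hrad
  rw [e]

theorem qq_congr {x : E} (e : h' x = h x) : qq h' x = qq h x := by
  unfold qq tr0
  rw [hrad_congr e, e]

theorem trS_congr (e1 : ∀ r, b ≤ r → φ' r = φ r) (e2 : ∀ x : E, b ≤ ‖x‖ → h' x = h x) {x : E}
    (hx : b ≤ ‖x‖) : trS φ' h' x = trS φ h x := by
  unfold trS
  rw [e1 _ hx, qq_congr (e2 x hx)]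

theorem divS_congr (e1 : ∀ r, b ≤ r → φ' r = φ r) (e2 : ∀ x : E, b ≤ ‖x‖ → h' x = h x) {x : E}
    (hx : b < ‖x‖) : divS φ' h' x = divS φ h x := by
  unfold divS divMixed
  rw [e1 _ hx.le]
  congr 1
  refine Finset.sum_congr rfl fun i _ => pd_congr ?_ i
  filter_upwards [far_nhds hx] with y hy
  unfold mixed
  rw [hrad_congr (e2 y (le_of_lt hy)), e2 y (le_of_lt hy)]

theorem transS_congr (e1 : ∀ r, b ≤ r → φ' r = φ r) (e2 : ∀ x : E, b ≤ ‖x‖ → h' x = h x) {x : E}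
    (hx : b ≤ ‖x‖) : transS φ' h' x = transS φ h x := by
  unfold transS transverse
  rw [e1 _ hx, qq_congr (e2 x hx), hrad_congr (e2 x hx), e2 x hx]

theorem sphereH_congr (e1 : ∀ r, b ≤ r → φ' r = φ r) {r : ℝ} (hr : b < r) :
    sphereH φ' r = sphereH φ r := by
  have h1 : φ' =ᶠ[𝓝 r] φ := by
    filter_upwards [Ioi_mem_nhds hr] with s hs
    exact e1 s (le_of_lt hs)
  unfold sphereH
  rw [h1.deriv_eq, e1 r hr.le]

theorem meanCurv_congr (e1 : ∀ r, b ≤ r → φ' r = φ r) {x : E} (hx : b < ‖x‖) :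
    meanCurv φ' x = meanCurv φ x := sphereH_congr e1 hx

theorem radialJ_congr (e1 : ∀ r, b ≤ r → φ' r = φ r) (e2 : ∀ x : E, b ≤ ‖x‖ → h' x = h x) {x : E}
    (hx : b < ‖x‖) : radialJ φ' h' x = radialJ φ h x := by
  unfold radialJ
  rw [e1 _ hx.le]
  congr 1
  refine Finset.sum_congr rfl fun k _ => ?_
  rw [momentum_congr (metric_ev e1 hx) (h_ev e2 hx)]

theorem dec_congr (e1 : ∀ r, b ≤ r → φ' r = φ r) (e2 : ∀ x : E, b ≤ ‖x‖ → h' x = h x) {x : E}
    (hx : b < ‖x‖) : (momentumNorm (metric φ') h' x ≤ energy (metric φ') h' x ↔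
      momentumNorm (metric φ) h x ≤ energy (metric φ) h x) := by
  rw [momentumNorm_congr (metric_ev e1 hx) (h_ev e2 hx),
    energy_congr (metric_ev e1 hx) (h_ev e2 hx)]

variable {Θ : Type} [TopologicalSpace Θ] [CompactSpace Θ] [MeasurableSpace Θ] [BorelSpace Θ]
variable {a : ℝ} {γ γ' : ℝ → Θ → E}

theorem bracket_congr (M : Moving a γ γ') (ha : 0 ≤ a) (hab : a ≤ b)
    (e1 : ∀ r, b ≤ r → φ' r = φ r) (e2 : ∀ x : E, b ≤ ‖x‖ → h' x = h x) {r : ℝ} (hr : b < r)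
    (θ : Θ) : bracket φ' h' γ r θ = bracket φ h γ r θ := by
  have har : a < r := hab.trans_lt hr
  have hn := M.norm ha har θ
  have hx : b < ‖r • γ r θ‖ := by rw [hn]; exact hr
  unfold bracket
  rw [trS_congr e1 e2 hx.le, divS_congr e1 e2 hx, transS_congr e1 e2 hx.le, sphereH_congr e1 hr]
  have hd : drift φ' h' γ r θ = drift φ h γ r θ := by
    unfold drift
    rw [e1 r hr.le]
    congr 1
    refine Filter.EventuallyEq.deriv_eq ?_
    filter_upwards [Ioi_mem_nhds har] with t ht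
    refine trS_congr e1 e2 ?_
    rw [ray_norm (M.unit t ht θ) (ha.trans_lt har)]
    exact hr.le
  rw [hd]

theorem meanSq_congr (M : Moving a γ γ') (ha : 0 ≤ a) (hab : a ≤ b) (ν : Measure Θ)
    (e1 : ∀ r, b ≤ r → φ' r = φ r) (e2 : ∀ x : E, b ≤ ‖x‖ → h' x = h x) {r : ℝ} (hr : b < r) :
    meanSq φ' h' γ ν r = meanSq φ h γ ν r := by
  unfold meanSq
  refine integral_congr_ae (Eventually.of_forall fun θ => ?_)
  simp only
  rw [trS_congr e1 e2]
  rw [M.norm ha (hab.trans_lt hr) θ]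
  exact hr.le

theorem untr_congr (M : Moving a γ γ') (ha : 0 ≤ a) (hab : a ≤ b) (ν : Measure Θ)
    (e1 : ∀ r, b ≤ r → φ' r = φ r) (e2 : ∀ x : E, b ≤ ‖x‖ → h' x = h x) {r : ℝ} (hr : b < r) :
    Untr φ' h' γ ν r ↔ Untr φ h γ ν r := by
  unfold Untr
  rw [sphereH_congr e1 hr, meanSq_congr M ha hab ν e1 e2 hr]

end

section

variable {Θ : Type} [TopologicalSpace Θ] [CompactSpace Θ] [MeasurableSpace Θ] [BorelSpace Θ]

/-- The version for data given on `{|x| > a}` only. -/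
theorem mean_end {a : ℝ} {γ γ' : ℝ → Θ → E} {φ : ℝ → ℝ} {h : E → Matrix (Fin 3) (Fin 3) ℝ}
    {m : ℝ} (M : Moving a γ γ') (ha : 0 ≤ a) (hφ : GoodFrom a φ) (H : TensorFrom a h)
    (ν : Measure Θ) [IsProbabilityMeasure ν] (flat : FlatEnd φ m) (decay : DecayFar h) {r₁ : ℝ}
    (hr₁ : a < r₁) (trapped : sphereH φ r₁ ≤ 0 ∨ (sphereH φ r₁) ^ 2 ≤ meanSq φ h γ ν r₁)
    (dec : ∀ r, r₁ < r → (∀ s, r ≤ s → Untr φ h γ ν s) → ∀ θ,
      momentumNorm (metric φ) h (r • γ r θ) ≤ energy (metric φ) h (r • γ r θ))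
    (flux : ∀ r, r₁ < r → (∀ s, r ≤ s → Untr φ h γ ν s) → ∀ θ,
      |trS φ h (r • γ r θ)| ≤ sphereH φ r ∨
      trS φ h (r • γ r θ) * radialJ φ h (r • γ r θ) ≤ 0)
    (cond : ∀ r, r₁ < r → (∀ s, r ≤ s → Untr φ h γ ν s) → 0 ≤ ∫ θ, bracket φ h γ r θ ∂ν) :
    ∃ r₀, r₁ ≤ r₀ ∧ Real.sqrt (sphereArea φ r₀ / (16 * Real.pi)) ≤ m := by
  obtain ⟨b, φ', h', hab, hb1, hφ', hh', flat', decay', e1, e2⟩ :=
    exists_ext ha hr₁ hφ H flat decay
  have hU : ∀ r, r₁ < r → (∀ s, r ≤ s → Untr φ' h' γ ν s) → ∀ s, r ≤ s → Untr φ h γ ν s :=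
    fun r hr hu s hs => (untr_congr M ha hab.le ν e1 e2 (hb1.trans (hr.trans_le hs))).1 (hu s hs)
  have hnorm : ∀ r, r₁ < r → ∀ θ, ‖r • γ r θ‖ = r := fun r hr θ => M.norm ha (hr₁.trans hr) θ
  have hfar : ∀ r, r₁ < r → ∀ θ, b < ‖r • γ r θ‖ := fun r hr θ => by
    rw [hnorm r hr θ]; exact hb1.trans hr
  obtain ⟨r₀, h1, h2⟩ := mean_core M ha hφ' hh' ν flat' decay' hr₁
    (by rw [sphereH_congr e1 hb1, meanSq_congr M ha hab.le ν e1 e2 hb1]; exact trapped)
    (fun r hr hu θ => (dec_congr e1 e2 (hfar r hr θ)).2 (dec r hr (hU r hr hu) θ))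
    (fun r hr hu θ => by
      rw [trS_congr e1 e2 (hfar r hr θ).le, radialJ_congr e1 e2 (hfar r hr θ),
        sphereH_congr e1 (hb1.trans hr)]
      exact flux r hr (hU r hr hu) θ)
    (fun r hr hu => by
      have h3 := cond r hr (hU r hr hu)
      have h4 : ∫ θ, bracket φ' h' γ r θ ∂ν = ∫ θ, bracket φ h γ r θ ∂ν :=
        integral_congr_ae (Eventually.of_forall fun θ =>
          bracket_congr M ha hab.le e1 e2 (hb1.trans hr) θ)
      rw [h4]
      exact h3)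
  refine ⟨r₀, h1, ?_⟩
  have h3 : sphereArea φ' r₀ = sphereArea φ r₀ := by
    unfold sphereArea
    rw [e1 r₀ (hb1.le.trans h1)]
  rwa [h3] at h2

/-- If the area radius tends to infinity at the inner boundary of the end, some centred sphere has
`H ≤ 0`. -/
theorem exists_nonpos_from {a : ℝ} {φ : ℝ → ℝ} (hφ : GoodFrom a φ)
    (other : Tendsto (fun r => (φ r) ^ 2 * r) (𝓝[>] a) atTop) (ha : 0 ≤ a) :
    ∃ r, a < r ∧ sphereH φ r ≤ 0 := by
  by_contra hcon
  push Not at hcon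
  have hder : ∀ r, a < r → HasDerivAt (fun s => (φ s) ^ 2 * s)
      ((φ r) ^ 4 * r * sphereH φ r / 2) r := by
    intro r hr
    have h0 : 0 < r := ha.trans_lt hr
    have hp := hφ.pos r hr
    have d1 : HasDerivAt φ (deriv φ r) r :=
      ((hφ.smooth.contDiffAt (Ioi_mem_nhds hr)).differentiableAt (by norm_num)).hasDerivAt
    refine ((d1.fun_pow 2).mul (hasDerivAt_id r)).congr_deriv ?_
    simp only [id, Nat.cast_ofNat, Nat.reduceSub, pow_one, mul_one]
    unfold sphereH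
    field_simp
    ring
  have hmono : MonotoneOn (fun r => (φ r) ^ 2 * r) (Ioi a) := by
    apply monotoneOn_of_deriv_nonneg (convex_Ioi a)
    · exact fun r hr => (hder r hr).continuousAt.continuousWithinAt
    · intro r hr
      rw [interior_Ioi] at hr
      exact (hder r hr).differentiableAt.differentiableWithinAt
    · intro r hr
      rw [interior_Ioi] at hr
      have hr' : a < r := hr
      rw [(hder r hr').deriv]
      have h1 := hcon r hr'
      have hp := hφ.pos r hr'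
      have h0 : 0 < r := ha.trans_lt hr'
      positivity
  have h1 := other.eventually (eventually_gt_atTop ((φ (a + 1)) ^ 2 * (a + 1)))
  have h2 : ∀ᶠ r in 𝓝[>] a, r < a + 1 :=
    mem_nhdsWithin_of_mem_nhds (Iio_mem_nhds (by linarith))
  have h3 : ∀ᶠ r in 𝓝[>] a, a < r := eventually_mem_nhdsWithin
  obtain ⟨r, ⟨h4, h5⟩, h6⟩ := ((h1.and h2).and h3).exists
  have := hmono (mem_Ioi.2 h6) (mem_Ioi.2 (show a < a + 1 by linarith)) h5.le
  simp only at this
  linarith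

end

end Pool.Agent.J4.H62.PI
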